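import Pool.Agent.Lib.MP_245eb3_an.FinSupp
import Pool.Agent.Lib.MP_245eb3_an.Def

/-!
Partial answer to Q1 (Burke and Pol): norm discrete sets which are not weakly Borel exist in `C(L)`
whenever `Bo(C(L), w) ≠ Bo(C(L))`, for every product `L`, with any number of factors, of compact
Hausdorff spaces each of which is scattered or metrizable, and for every closed subset `L` of a
product of scattered compact spaces which contains the restrictions of its points to the finite
sets of coordinates; and for every `K` such that `C(K)` contains an isomorphic copy of such a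
`C(L)`.

Idea: the set of coordinates on which a function varies by more than `t` is finite, and it is a
locally constant function on weakly Borel sets (as in Troyanski's and Day's renormings); a label
for this finite set, together with the rounding of the restriction of the function to the finite
subproduct, is a weakly continuous map with uniformly discrete range and small fibres.
-/

set_option autoImplicit false

open Set
open scoped MeasureTheory
open Pool.Agent.Lib.WeakBorel
open Pool.Agent.Lib.MP_245eb3_an.Def

universe u v

namespace Pool.Agent.Results.MP_245eb3_an.ArbitraryProducts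

theorem result (L : Type u) [TopologicalSpace L] [CompactSpace L] [T2Space L]
    (K : Type v) [TopologicalSpace K] [CompactSpace K] [T2Space K]
    (hL : Product L ∨ StableScattered L)
    (J : C(L, ℝ) →L[ℝ] C(K, ℝ)) (c : ℝ) (hc : 0 < c) (hJ : ∀ y, c * ‖y‖ ≤ ‖J y‖)
    (hne : MeasurableSpace.comap (toWeakSpace ℝ C(L, ℝ)) (borel (WeakSpace ℝ C(L, ℝ)))
      ≠ borel C(L, ℝ)) :
    ∃ D : Set C(K, ℝ), (∃ δ > 0, ∀ f ∈ D, ∀ g ∈ D, f ≠ g → δ ≤ ‖f - g‖) ∧
      DiscreteTopology D ∧
      ¬ @MeasurableSet C(K, ℝ)
          (MeasurableSpace.comap (toWeakSpace ℝ C(K, ℝ)) (borel (WeakSpace ℝ C(K, ℝ)))) D := by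
  have hF : FiniteSupports L := by
    rcases hL with hL | hL
    · exact finiteSupports_of_arbitraryProduct hL
    · exact finiteSupports_of_stableInScattered hL
  obtain ⟨D, ⟨δ, hδ, hsep⟩, hD⟩ := transfer J hc hJ (hF.hasSep.main hne)
  refine ⟨D, ⟨δ, hδ, hsep⟩, ?_, hD⟩
  apply DiscreteTopology.of_forall_le_dist hδ
  intro x y hxy
  rw [Subtype.dist_eq, dist_eq_norm]
  exact hsep x x.2 y y.2 (fun h => hxy (Subtype.ext h))

end Pool.Agent.Results.MP_245eb3_an.ArbitraryProducts
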