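import Pool.Agent.Lib.MP_245eb3_an.FS.FSpace

/-!
Partial answer to Q1 (Burke and Pol): norm discrete sets which are not weakly Borel exist in `C(K)`
whenever `C(K)` contains an isomorphic copy of `C(L)` for an infinite compact Hausdorff F-space
`L`.

Idea: take a family `X` of at most continuum many functions on `L` which is closed under countable
interpolation. A fusion shows that for every weakly Borel set `B` there are a region `a` and a
function `x` in `X` such that `B` contains all or none of the functions `z` in `X` which agree
with `x` outside the region and which, on a fixed sequence of disjoint bumps `e n`, are `0` or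
`e n`. There are at most continuum many such pairs `(a, x)`, each with continuum many traces
`{n | z (p n) = 1}`; a selection as for Bernstein sets gives a uniformly discrete set `D` which
contains one, but not all, of the functions `z` of each pair.
-/

set_option autoImplicit false

open Set
open scoped MeasureTheory
open Pool.Agent.Lib.WeakBorel
open Pool.Agent.Lib.MP_245eb3_an.FS

universe u v

namespace Pool.Agent.Results.MP_245eb3_an.FSpaces

theorem result (K : Type v) [TopologicalSpace K] [CompactSpace K] [T2Space K]
    (L : Type u) [TopologicalSpace L] [CompactSpace L] [T2Space L] [Infinite L] (hL : FSpace L)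
    (J : C(L, ℝ) →L[ℝ] C(K, ℝ)) (c : ℝ) (hc : 0 < c) (hJ : ∀ y, c * ‖y‖ ≤ ‖J y‖) :
    ∃ D : Set C(K, ℝ), (∃ δ > 0, ∀ f ∈ D, ∀ g ∈ D, f ≠ g → δ ≤ ‖f - g‖) ∧
      DiscreteTopology D ∧
      ¬ @MeasurableSet C(K, ℝ)
          (MeasurableSpace.comap (toWeakSpace ℝ C(K, ℝ)) (borel (WeakSpace ℝ C(K, ℝ)))) D := by
  obtain ⟨D, ⟨δ, hδ, hsep⟩, hD⟩ := fspace_case hL J hc hJ
  refine ⟨D, ⟨δ, hδ, hsep⟩, ?_, hD⟩
  apply DiscreteTopology.of_forall_le_dist hδ
  intro x y hxy
  rw [Subtype.dist_eq, dist_eq_norm]
  exact hsep x x.2 y y.2 (fun h => hxy (Subtype.ext h))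

end Pool.Agent.Results.MP_245eb3_an.FSpaces
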