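import Pool.Agent.Lib.MP_245eb3_an.NetClasses
import Pool.Agent.Lib.MP_245eb3_an.Def

/-!
Partial answer to Q1 (Burke and Pol): norm discrete sets which are not weakly Borel exist in `C(L)`
whenever `Bo(C(L), w) ≠ Bo(C(L))`, if `L` has a closed subset `F` with scattered complement such
that `C(F)` has an equivalent Kadec norm, or `F` is a product of compact metrizable spaces (or a
closed subset of such a product which contains the restrictions of its points to the finite sets of
coordinates); and for every `K` such that `C(K)` contains an isomorphic copy of such a `C(L)`.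

Idea: on countably many weakly Borel sets, the restriction of `f` to `F` has an approximation which
is locally constant in the weak topology. After subtracting it, `f` is small on `F`, and it can be
rounded, up to a gap, on the scattered complement.
-/

set_option autoImplicit false

open Set
open scoped MeasureTheory
open Pool.Agent.Lib.WeakBorel
open Pool.Agent.Lib.MP_245eb3_an.Def

universe u v

namespace Pool.Agent.Results.MP_245eb3_an.KadecKernel

theorem isKadec_of {E : Type u} [NormedAddCommGroup E] [NormedSpace ℝ E] {N : Seminorm ℝ E}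
    (h : KadecNorm N) : IsKadec N := by
  refine ⟨h.1, h.2.1, fun x hx U hU hxU => ?_⟩
  obtain ⟨V, hV, hxV, hVU⟩ := h.2.2 x hx U hU hxU
  refine ⟨{y | toWeakSpace ℝ E y ∈ V}, ?_, hxV, fun y hy hNy => hVU y hy hNy⟩
  have h1 : wset {y : E | toWeakSpace ℝ E y ∈ V} = V := by
    ext z
    show toWeakSpace ℝ E ((toWeakSpace ℝ E).symm z) ∈ V ↔ z ∈ V
    rw [LinearEquiv.apply_symm_apply]
  unfold WOpen
  rw [h1]
  exact hV

/-- The property passes to homeomorphic spaces. -/
theorem hasNet_of_homeomorph {P : Type u} {Q : Type v} [TopologicalSpace P] [CompactSpace P]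
    [TopologicalSpace Q] [CompactSpace Q] (h : HasNet C(P, ℝ)) (f : Q ≃ₜ P) :
    HasNet C(Q, ℝ) := by
  intro ε hε
  obtain ⟨ι, hι, X, lab, a, hcov, hX⟩ := h ε hε
  let T : C(P, ℝ) →L[ℝ] C(Q, ℝ) := ContinuousMap.compCLM ℝ ℝ (⟨f, f.continuous⟩ : C(Q, P))
  let S : C(Q, ℝ) →L[ℝ] C(P, ℝ) :=
    ContinuousMap.compCLM ℝ ℝ (⟨f.symm, f.symm.continuous⟩ : C(P, Q))
  have hT : ∀ x l, T x l = x (f l) := fun _ _ => rfl
  have hS : ∀ y k, S y k = y (f.symm k) := fun _ _ => rfl
  have hTS : ∀ y, T (S y) = y := fun y => by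
    ext l
    rw [hT, hS, f.symm_apply_apply]
  have hST : ∀ x, S (T x) = x := fun x => by
    ext k
    rw [hS, hT, f.apply_symm_apply]
  have hTn : ∀ x, ‖T x‖ = ‖x‖ := by
    intro x
    apply le_antisymm
    · rw [ContinuousMap.norm_le _ (norm_nonneg _)]
      intro l
      exact ContinuousMap.norm_coe_le_norm x _
    · rw [ContinuousMap.norm_le _ (norm_nonneg _)]
      intro k
      have := ContinuousMap.norm_coe_le_norm (T x) (f.symm k)
      rwa [hT, f.apply_symm_apply] at this
  refine ⟨ι, hι, fun i => {y | S y ∈ X i}, fun i y => T (lab i (S y)), fun i y => T (a i (S y)),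
    fun y => hcov (S y), fun i => ?_⟩
  obtain ⟨hm, hl, ha, hs, hla⟩ := hX i
  refine ⟨?_, ?_, ?_, ?_, ?_⟩
  · have h1 := (wContOn_clm S univ).measurableSet_preimage' wClosed_univ.measurableSet hm
    rw [univ_inter] at h1
    exact h1
  · intro y hy
    obtain ⟨V, hV, hyV, hVl⟩ := hl _ hy
    refine ⟨{z | S z ∈ V}, hV.preimage_clm S, hyV, fun z hz hzV => ?_⟩
    show T (lab i (S z)) = T (lab i (S y))
    rw [hVl _ hz hzV]
  · intro y hy
    have h1 := ha _ hy
    rw [← hTn, map_sub, hTS] at h1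
    exact h1
  · intro y hy z hz hne
    have h1 : lab i (S y) ≠ lab i (S z) := fun h => hne (by
      show T (lab i (S y)) = T (lab i (S z))
      rw [h])
    have h2 := hs _ hy _ hz h1
    show 1 ≤ ‖T (lab i (S y)) - T (lab i (S z))‖
    rwa [← map_sub, hTn]
  · intro y hy z hz hEq
    have h1 : lab i (S y) = lab i (S z) := by
      have := congrArg S hEq
      rwa [hST, hST] at this
    show T (a i (S y)) = T (a i (S z))
    rw [hla _ hy _ hz h1]

theorem hasNet_of_stableMetrizable {P : Type u} [TopologicalSpace P] [CompactSpace P]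
    (h : StableMetrizable P) : HasNet C(P, ℝ) := by
  obtain ⟨I, X, _, e, K, hX, hK, hr, ⟨f⟩⟩ := h
  have hC : ∀ i, CompactSpace (X i) := fun i => (hX i).1
  have : CompactSpace K := isCompact_iff_compactSpace.mp hK.isCompact
  exact hasNet_of_homeomorph (hasNet_of_stable (fun i => (hX i).2) e hr) f

theorem result :
    (∀ (L : Type u) [TopologicalSpace L] [CompactSpace L] [T2Space L] (F : Set L)
        (K : Type v) [TopologicalSpace K] [CompactSpace K] [T2Space K],
      IsClosed F → Scattered Fᶜ →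
      ((∀ [CompactSpace F], ∃ N : Seminorm ℝ C(F, ℝ), KadecNorm N) ∨ StableMetrizable F) →
      ∀ (J : C(L, ℝ) →L[ℝ] C(K, ℝ)) (c : ℝ), 0 < c → (∀ y, c * ‖y‖ ≤ ‖J y‖) →
      MeasurableSpace.comap (toWeakSpace ℝ C(L, ℝ)) (borel (WeakSpace ℝ C(L, ℝ)))
          ≠ borel C(L, ℝ) →
      ∃ D : Set C(K, ℝ), (∃ δ > 0, ∀ f ∈ D, ∀ g ∈ D, f ≠ g → δ ≤ ‖f - g‖) ∧
        DiscreteTopology D ∧
        ¬ @MeasurableSet C(K, ℝ)
            (MeasurableSpace.comap (toWeakSpace ℝ C(K, ℝ)) (borel (WeakSpace ℝ C(K, ℝ)))) D) ∧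
    (∀ (F : Type u) [TopologicalSpace F] (I : Type u) (X : I → Type u)
        [∀ i, TopologicalSpace (X i)], Nonempty F →
      (∀ i, CompactSpace (X i) ∧ TopologicalSpace.MetrizableSpace (X i)) →
      Nonempty (F ≃ₜ (∀ i, X i)) → StableMetrizable F) := by
  refine ⟨?_, ?_⟩
  · intro L _ _ _ F K _ _ _ hF hS hN J c hc hJ hne
    have hcF : CompactSpace F := isCompact_iff_compactSpace.mp hF.isCompact
    have hnet : HasNet C(F, ℝ) := by
      rcases hN with hN | hN
      · obtain ⟨N, hN⟩ := hN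
        exact (isKadec_of hN).hasNet
      · exact hasNet_of_stableMetrizable hN
    obtain ⟨D, ⟨δ, hδ, hsep⟩, hD⟩ := transfer J hc hJ ((hasSep_of_kernel hF hS hnet).main hne)
    refine ⟨D, ⟨δ, hδ, hsep⟩, ?_, hD⟩
    apply DiscreteTopology.of_forall_le_dist hδ
    intro x y hxy
    rw [Subtype.dist_eq, dist_eq_norm]
    exact hsep x x.2 y y.2 (fun h => hxy (Subtype.ext h))
  · intro F _ I X _ hFne hX hf
    obtain ⟨f⟩ := hf
    exact ⟨I, X, inferInstance, f hFne.some, univ, hX, isClosed_univ, fun _ _ _ => mem_univ _,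
      ⟨f.trans (Homeomorph.Set.univ _).symm⟩⟩

end Pool.Agent.Results.MP_245eb3_an.KadecKernel
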