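import Pool.Agent.Lib.MP_245eb3_an.SI.Clopen
import Pool.Agent.Lib.MP_245eb3_an.SI.Funct

/-!
Partial answer to Q1 (Burke and Pol): norm discrete sets which are not weakly Borel exist in `C(K)`
whenever `C(K)` contains an isomorphic copy of `ℓ^∞`, or of a `C(L)` such that the clopen sets of
`L` have the subsequential interpolation property (in particular Haydon's subsequential
completeness property), or of a `C(L)` such that disjoint sequences in the unit interval of `C(L)`
have infinite subfamilies with a supremum.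

Idea: for a ring `R` of sets with the subsequential interpolation property and a bounded additive
`e : R → C(K)` with separated values, a fusion as for Silver forcing shows that for every weakly
Borel set `B` there are `a, x` in `R`, disjoint, `a` large, such that `B` contains all or none of
the `e z` with `z \ a = x`.
-/

set_option autoImplicit false

open Set
open scoped MeasureTheory BoundedContinuousFunction
open Pool.Agent.Lib.WeakBorel
open Pool.Agent.Lib.MP_245eb3_an.SI

universe u v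

namespace Pool.Agent.Results.MP_245eb3_an.SubsequentialInterpolation

theorem result (K : Type v) [TopologicalSpace K] [CompactSpace K] [T2Space K]
    (h :
      -- `C(K)` contains `ℓ^∞`
      (∃ (J : (ℕ →ᵇ ℝ) →L[ℝ] C(K, ℝ)) (c : ℝ), 0 < c ∧ ∀ y, c * ‖y‖ ≤ ‖J y‖) ∨
      -- `C(K)` contains `C(L)`, clopen sets of `L` with subsequential interpolation
      (∃ (L : Type u) (_ : TopologicalSpace L) (_ : CompactSpace L) (_ : T2Space L),
        ClopenSI L ∧
        (∃ d : ℕ → Set L, (∀ n, IsClopen (d n) ∧ (d n).Nonempty) ∧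
          ∀ i j, i ≠ j → Disjoint (d i) (d j)) ∧
        ∃ (J : C(L, ℝ) →L[ℝ] C(K, ℝ)) (c : ℝ), 0 < c ∧ ∀ y, c * ‖y‖ ≤ ‖J y‖) ∨
      -- `C(K)` contains `C(L)`, disjoint sequences in `C(L)` with suprema of subsequences
      (∃ (L : Type u) (_ : TopologicalSpace L) (_ : CompactSpace L) (_ : T2Space L),
        Infinite L ∧ FunSCP L ∧
        ∃ (J : C(L, ℝ) →L[ℝ] C(K, ℝ)) (c : ℝ), 0 < c ∧ ∀ y, c * ‖y‖ ≤ ‖J y‖)) :
    ∃ D : Set C(K, ℝ), (∃ δ > 0, ∀ f ∈ D, ∀ g ∈ D, f ≠ g → δ ≤ ‖f - g‖) ∧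
      DiscreteTopology D ∧
      ¬ @MeasurableSet C(K, ℝ)
          (MeasurableSpace.comap (toWeakSpace ℝ C(K, ℝ)) (borel (WeakSpace ℝ C(K, ℝ)))) D := by
  have key : ∃ D : Set C(K, ℝ), (∃ δ > 0, ∀ x ∈ D, ∀ y ∈ D, x ≠ y → δ ≤ ‖x - y‖) ∧
      ¬ MeasurableSet[wBorel C(K, ℝ)] D := by
    rcases h with ⟨J, c, hc, hJ⟩ | ⟨L, _, _, _, hL, ⟨d, hd, hdis⟩, J, c, hc, hJ⟩ |
      ⟨L, _, _, _, hinf, hL, J, c, hc, hJ⟩
    · exact linf_case J hc hJ
    · exact clopen_case hL (fun n => (hd n).1) (fun n => (hd n).2) hdis J hc hJ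
    · exact fun_case hL J hc hJ
  obtain ⟨D, ⟨δ, hδ, hsep⟩, hD⟩ := key
  refine ⟨D, ⟨δ, hδ, hsep⟩, ?_, hD⟩
  apply DiscreteTopology.of_forall_le_dist hδ
  intro x y hxy
  rw [Subtype.dist_eq, dist_eq_norm]
  exact hsep x x.2 y y.2 (fun h => hxy (Subtype.ext h))

end Pool.Agent.Results.MP_245eb3_an.SubsequentialInterpolation
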